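import Pool.Agent.H21.NEssDefs

namespace Pool.Agent.Results.MP_bbc03c_al.RightAlt

open Pool.Agent.H21.NEss

abbrev Z6 := ℤ × ℤ × ℤ × ℤ × ℤ × ℤ

def A : Type := Z6

instance : AddCommGroup A := inferInstanceAs (AddCommGroup Z6)

def mu (x y : Z6) : Z6 :=
  (x.1 * y.1, x.1 * y.2.1 + x.2.1 * y.1, x.1 * y.2.2.1 + x.2.2.1 * y.1,
    x.1 * y.2.2.2.1 + x.2.2.2.1 * y.1 + x.2.2.1 * y.2.1,
    x.1 * y.2.2.2.2.1 + x.2.2.2.2.1 * y.1 + x.2.1 * y.2.1,
    x.1 * y.2.2.2.2.2 + x.2.2.2.2.2 * y.1 + x.2.1 * y.2.2.2.1 + x.2.2.2.1 * y.2.1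
      + x.2.2.1 * y.2.2.2.2.1 + x.2.2.2.2.1 * y.2.2.1)

instance : NonAssocRing A :=
  { (inferInstance : AddCommGroup A) with
    mul := mu
    one := ((1, 0, 0, 0, 0, 0) : Z6)
    left_distrib := fun (x y z : Z6) => show mu x (y + z) = mu x y + mu x z by
      simp [mu]; (repeat' constructor) <;> ring
    right_distrib := fun (x y z : Z6) => show mu (x + y) z = mu x z + mu y z by
      simp [mu]; (repeat' constructor) <;> ring
    zero_mul := fun (x : Z6) => show mu 0 x = 0 by simp [mu]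
    mul_zero := fun (x : Z6) => show mu x 0 = 0 by simp [mu]
    one_mul := fun (x : Z6) => show mu (1, 0, 0, 0, 0, 0) x = x by simp [mu]
    mul_one := fun (x : Z6) => show mu x (1, 0, 0, 0, 0, 0) = x by simp [mu] }

lemma assoc_eq (x y z : Z6) :
    assoc (R := A) x y z = ((0, 0, 0, 0, 0, x.2.1 * (y.2.1 * z.2.2.1 - y.2.2.1 * z.2.1)) : Z6) := by
  show mu (mu x y) z - mu x (mu y z) = _
  simp [mu]; (repeat' constructor) <;> ring

lemma mem_cen (x : Z6) (h : x.2.1 = 0) (h' : x.2.2.1 = 0) : (x : A) ∈ centre A := by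
  refine ⟨fun (a : Z6) (b : Z6) => ?_, fun (a : Z6) => ?_⟩
  · rw [assoc_eq, assoc_eq, assoc_eq]
    simp only [h, h', zero_mul, mul_zero, sub_self]
    exact ⟨rfl, rfl, rfl⟩
  · show mu x a = mu a x
    simp [mu, h, h']; (repeat' constructor) <;> ring

theorem result : ∃ (R : Type) (_ : NonAssocRing R), (∀ a b : R, assoc a b b = 0) ∧
    ¬ (∀ a b : R, assoc a a b = 0 ∧ assoc a b b = 0) ∧ CentrallyEss R := by
  refine ⟨A, inferInstance, ?_, ?_, ?_⟩
  · intro (a : Z6) (b : Z6)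
    rw [assoc_eq, mul_comm b.2.1, sub_self, mul_zero]; rfl
  · intro h
    have := (h ((0, 1, 0, 0, 0, 0) : Z6) ((0, 0, 1, 0, 0, 0) : Z6)).1
    rw [assoc_eq] at this
    simpa using (show ((0, 0, 0, 0, 0, 1 * (1 * 1 - 0 * 0)) : Z6) = 0 from this)
  · intro (r : Z6) hr
    by_cases h : r.2.1 = 0
    · by_cases h' : r.2.2.1 = 0
      · refine ⟨1, mem_cen (1, 0, 0, 0, 0, 0) rfl rfl, ?_, by rwa [one_mul]⟩
        rw [one_mul]; exact mem_cen r h h'
      · refine ⟨((0, 0, 0, 0, 1, 0) : Z6), mem_cen _ rfl rfl, mem_cen (mu (0, 0, 0, 0, 1, 0) r)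
          (by simp [mu]) (by simp [mu]), fun h0 => h' ?_⟩
        have h2 := congrArg (fun t : Z6 => t.2.2.2.2.2) (show mu (0, 0, 0, 0, 1, 0) r = 0 from h0)
        simpa [mu] using h2
    · refine ⟨((0, 0, 0, 1, 0, 0) : Z6), mem_cen _ rfl rfl, mem_cen (mu (0, 0, 0, 1, 0, 0) r)
        (by simp [mu]) (by simp [mu]), fun h0 => h ?_⟩
      have h2 := congrArg (fun t : Z6 => t.2.2.2.2.2) (show mu (0, 0, 0, 1, 0, 0) r = 0 from h0)
      simpa [mu] using h2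

end Pool.Agent.Results.MP_bbc03c_al.RightAlt
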